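import Pool.Agent.NH86.HD.Fin

/-!
# HOD above an extendible cardinal: ordinals that are singular for definable sets
-/

set_option autoImplicit false

open Ordinal Cardinal Set

universe u

namespace Pool.Agent.NH49.EX

open Pool.Agent.NH86.HD

/-! ### Order types -/

/-- a set of ordinals below `a` has an order type -/
theorem exists_OT (E : Set Ordinal.{u}) (a : Ordinal.{u}) (hE : E ⊆ Set.Iio a) : ∃ v, OT E v := by
  have hs : ¬ BddAbove (E ∪ Set.Ici a) := by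
    rw [not_bddAbove_iff]
    intro x
    exact ⟨max a (Order.succ x), Or.inr (Set.mem_Ici.2 (le_max_left _ _)),
      (Order.lt_succ x).trans_le (le_max_right _ _)⟩
  have hr := range_enumOrd hs
  obtain ⟨v, hv⟩ : a ∈ Set.range (enumOrd (E ∪ Set.Ici a)) := by
    rw [hr]
    exact Or.inr (Set.mem_Ici.2 le_rfl)
  refine ⟨v, enumOrd (E ∪ Set.Ici a), (enumOrd_strictMono hs).strictMonoOn _, ?_⟩
  ext x
  constructor
  · intro hx
    obtain ⟨i, hi⟩ : x ∈ Set.range (enumOrd (E ∪ Set.Ici a)) := by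
      rw [hr]
      exact Or.inl hx
    refine ⟨i, ?_, hi⟩
    have h1 : enumOrd (E ∪ Set.Ici a) i < enumOrd (E ∪ Set.Ici a) v := by
      rw [hi, hv]
      exact hE hx
    exact (enumOrd_lt_enumOrd hs).1 h1
  · rintro ⟨i, hi, rfl⟩
    have h1 : enumOrd (E ∪ Set.Ici a) i < a := by
      have h2 := enumOrd_strictMono hs hi
      rwa [hv] at h2
    rcases enumOrd_mem hs i with h | h
    · exact h
    · exact absurd h (not_le.2 h1)

/-! ### Records -/

/-- the records of the (partial) inverse of the one-to-one relation `f` between `a` and `g` -/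
def recd (a g : Ordinal.{u}) (f : ZFSet.{u}) : Set Ordinal.{u} :=
  {x | x < a ∧ ∃ j < g, ZFSet.pair x.toZFSet j.toZFSet ∈ f ∧
    ∀ x' < a, ∀ j' < j, ZFSet.pair x'.toZFSet j'.toZFSet ∈ f → x' < x}

theorem recd_cofinal {a g : Ordinal.{u}} {f : ZFSet.{u}}
    (hf : ∀ i < a, ∃ j < g, ZFSet.pair i.toZFSet j.toZFSet ∈ f) :
    ∀ b < a, ∃ c ∈ recd a g f, b ≤ c := by
  intro b hb
  obtain ⟨j0, hj0, hbj⟩ := hf b hb
  obtain ⟨j, hj, hmin⟩ := (wellFounded_lt (α := Ordinal.{u})).has_min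
    {j | j < g ∧ ∃ x < a, b ≤ x ∧ ZFSet.pair x.toZFSet j.toZFSet ∈ f} ⟨j0, hj0, b, hb, le_rfl, hbj⟩
  obtain ⟨hjg, x, hx, hbx, hxj⟩ := hj
  refine ⟨x, ⟨hx, j, hjg, hxj, fun x' hx' j' hj' h => ?_⟩, hbx⟩
  by_contra hc
  rw [not_lt] at hc
  exact hmin j' ⟨hj'.trans hjg, x', hx', hbx.trans hc, h⟩ hj'

theorem recd_OT {a g : Ordinal.{u}} {f : ZFSet.{u}}
    (hf : ∀ x y z, ZFSet.pair x z ∈ f → ZFSet.pair y z ∈ f → x = y) {v : Ordinal.{u}}
    (hv : OT (recd a g f) v) : v ≤ g := by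
  obtain ⟨e, he, hE⟩ := hv
  have hex : ∀ i, ∃ j, i < v → (j < g ∧ ZFSet.pair (e i).toZFSet j.toZFSet ∈ f ∧
      ∀ x' < a, ∀ j' < j, ZFSet.pair x'.toZFSet j'.toZFSet ∈ f → x' < e i) := by
    intro i
    by_cases hi : i < v
    · have h1 : e i ∈ recd a g f := by
        rw [hE]
        exact ⟨i, hi, rfl⟩
      obtain ⟨j, hj, h2, h3⟩ := h1.2
      exact ⟨j, fun _ => ⟨hj, h2, h3⟩⟩
    · exact ⟨0, fun h => absurd h hi⟩
  choose n hn using hex
  refine le_of_strictMonoOn (n := n) ?_ fun i hi => (hn i hi).1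
  intro i hi j hj hij
  obtain ⟨-, h1, h2⟩ := hn i hi
  obtain ⟨-, h3, -⟩ := hn j hj
  have h5 : e i < e j := he hi hj hij
  have hja : e j < a := by
    have h6 : e j ∈ recd a g f := by
      rw [hE]
      exact ⟨j, hj, rfl⟩
    exact h6.1
  by_contra hc
  rw [not_lt] at hc
  rcases hc.lt_or_eq with h | h
  · exact absurd (h2 (e j) hja (n j) h h3) (not_lt.2 h5.le)
  · rw [h] at h3
    exact absurd (toZFSet_injective (hf _ _ _ h1 h3)) h5.ne

/-- the definition of the set of the records -/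
def IsRec (D a g F : ZFSet.{u}) : Prop :=
  ∀ x, x ∈ D ↔ (x ∈ a ∧ ∃ j, (j ∈ g ∧ ZFSet.pair x j ∈ F) ∧
    ∀ x', x' ∈ a → ∀ j', j' ∈ j → ZFSet.pair x' j' ∈ F → x' ∈ x)

theorem df_IsRec (d a g f : ℕ) : Df.{u} fun s => IsRec (s d) (s a) (s g) (s f) := by
  refine Df.all (R := fun x s => x ∈ s d ↔ (x ∈ s a ∧ ∃ j, (j ∈ s g ∧ ZFSet.pair x j ∈ s f) ∧
    ∀ x', x' ∈ s a → ∀ j', j' ∈ j → ZFSet.pair x' j' ∈ s f → x' ∈ x)) ?_
  refine (Df.mem 0 (d + 1)).iff ((Df.mem 0 (a + 1)).and ?_)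
  refine Df.ex (R := fun j s => (j ∈ s (g + 1) ∧ ZFSet.pair (s 0) j ∈ s (f + 1)) ∧
    ∀ x', x' ∈ s (a + 1) → ∀ j', j' ∈ j → ZFSet.pair x' j' ∈ s (f + 1) → x' ∈ s 0) ?_
  refine ((Df.mem 0 (g + 1 + 1)).and (Df.pairMem 1 0 (f + 1 + 1))).and ?_
  refine Df.all (R := fun x' s => x' ∈ s (a + 1 + 1) → ∀ j', j' ∈ s 0 →
    ZFSet.pair x' j' ∈ s (f + 1 + 1) → x' ∈ s 1) ?_
  refine (Df.mem 0 (a + 1 + 1 + 1)).imp ?_
  refine Df.all (R := fun j' s => j' ∈ s 1 → ZFSet.pair (s 0) j' ∈ s (f + 1 + 1 + 1) →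
    s 0 ∈ s 2) ?_
  exact (Df.mem 0 2).imp ((Df.pairMem 1 0 (f + 1 + 1 + 1 + 1)).imp (Df.mem 1 3))

theorem isRec_iff {a g : Ordinal.{u}} {f D : ZFSet.{u}} :
    IsRec D a.toZFSet g.toZFSet f ↔ D = toZ a (recd a g f) := by
  have key : ∀ x, (x ∈ a.toZFSet ∧ ∃ j, (j ∈ g.toZFSet ∧ ZFSet.pair x j ∈ f) ∧
      ∀ x', x' ∈ a.toZFSet → ∀ j', j' ∈ j → ZFSet.pair x' j' ∈ f → x' ∈ x) ↔
      x ∈ toZ a (recd a g f) := by
    intro x
    rw [mem_toZ]
    constructor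
    · rintro ⟨hx, j, ⟨hj, h1⟩, h2⟩
      obtain ⟨ξ, hξ, rfl⟩ := mem_toZFSet_iff.1 hx
      obtain ⟨i, hi, rfl⟩ := mem_toZFSet_iff.1 hj
      refine ⟨ξ, hξ, ⟨hξ, i, hi, h1, fun x' hx' j' hj' h => ?_⟩, rfl⟩
      exact toZFSet_mem_toZFSet_iff.1 (h2 _ (toZFSet_mem_toZFSet_iff.2 hx') _
        (toZFSet_mem_toZFSet_iff.2 hj') h)
    · rintro ⟨ξ, hξ, ⟨-, i, hi, h1, h2⟩, rfl⟩
      refine ⟨toZFSet_mem_toZFSet_iff.2 hξ, i.toZFSet, ⟨toZFSet_mem_toZFSet_iff.2 hi, h1⟩, ?_⟩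
      intro x' hx' j' hj' h
      obtain ⟨y, hy, rfl⟩ := mem_toZFSet_iff.1 hx'
      obtain ⟨i', hi', rfl⟩ := mem_toZFSet_iff.1 hj'
      exact toZFSet_mem_toZFSet_iff.2 (h2 y hy i' hi' h)
  constructor
  · intro h
    ext x
    rw [h x, key x]
  · rintro rfl x
    exact (key x).symm

/-- the set of the records is definable from `x` and ordinals if `f` is -/
theorem ODp_recd {a g : Ordinal.{u}} {x f : ZFSet.{u}} (hf : ODp x f) :
    ODp x (toZ a (recd a g f)) := by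
  obtain ⟨φ, p, hφ⟩ := hf
  have hP : Df.{u} fun s => ∃ F, Sat φ (cns F (cns (s 1) fun n => s (n + 4))) ∧
      IsRec (s 0) (s 2) (s 3) F := by
    refine Df.ex (R := fun F s => Sat φ (cns F (cns (s 1) fun n => s (n + 4))) ∧
      IsRec (s 0) (s 2) (s 3) F) ?_
    refine Df.and ?_ (df_IsRec 1 3 4 0)
    have h : Df.{u} (fun s => Sat φ s) := ⟨φ, fun _ => Iff.rfl⟩
    refine (h.ren (cns 0 (cns 2 fun n => n + 5))).congr fun s => ?_
    have e : (fun n => s (cns 0 (cns 2 fun n => n + 5) n)) =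
        cns (s 0) (cns (s (1 + 1)) fun n => s (n + 4 + 1)) := by
      funext n
      rcases n with _ | _ | n <;> rfl
    rw [e]
  obtain ⟨ψ, hψ⟩ := hP
  refine ⟨ψ, cns a (cns g p), fun y => ?_⟩
  rw [hψ]
  have e : (fun n => cns y (cns x (oz (cns a (cns g p)))) (n + 4)) = oz p := rfl
  have e0 : cns y (cns x (oz (cns a (cns g p)))) 0 = y := rfl
  have e1 : cns y (cns x (oz (cns a (cns g p)))) 1 = x := rfl
  have e2 : cns y (cns x (oz (cns a (cns g p)))) 2 = a.toZFSet := rfl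
  have e3 : cns y (cns x (oz (cns a (cns g p)))) 3 = g.toZFSet := rfl
  change (∃ F, Sat φ (cns F (cns (cns y (cns x (oz (cns a (cns g p)))) 1)
    (fun n => cns y (cns x (oz (cns a (cns g p)))) (n + 4)))) ∧
      IsRec (cns y (cns x (oz (cns a (cns g p)))) 0) (cns y (cns x (oz (cns a (cns g p)))) 2)
        (cns y (cns x (oz (cns a (cns g p)))) 3) F) ↔ _
  rw [e, e0, e1, e2, e3]
  constructor
  · rintro ⟨F, h1, h2⟩
    rw [hφ] at h1
    subst h1
    exact isRec_iff.1 h2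
  · intro h
    exact ⟨f, (hφ f).2 rfl, isRec_iff.2 h⟩

theorem ODp_of_OD {D : ZFSet.{u}} (hD : OD D) (x : ZFSet.{u}) : ODp x D := by
  obtain ⟨φ, p, hφ⟩ := hD
  have h : Df.{u} (fun s => Sat φ s) := ⟨φ, fun _ => Iff.rfl⟩
  obtain ⟨ψ, hψ⟩ := h.ren fun n => if n = 0 then 0 else n + 1
  refine ⟨ψ, p, fun y => ?_⟩
  rw [hψ, ← hφ y]
  have e : (fun n => cns y (cns x (oz p)) (if n = 0 then 0 else n + 1)) = cns y (oz p) := by
    funext n
    cases n <;> simp
  change Sat φ (fun n => cns y (cns x (oz p)) (if n = 0 then 0 else n + 1)) ↔ _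
  rw [e]

/-- `a` has a cofinal subset of smaller order type that is definable from ordinals and `x` (that is, the
limit ordinal `a` is singular in `HOD_x`) -/
def SingP (x : ZFSet.{u}) (a : Ordinal.{u}) : Prop :=
  ∃ D : ZFSet.{u}, ODp x D ∧ D ⊆ a.toZFSet ∧ Cf a (ords D) ∧ ∃ v < a, OT (ords D) v

/-- a limit ordinal `a` is singular in `HOD_x` if there is a one-to-one relation, definable from `x` and
ordinals, between `a` and a smaller ordinal `g` -/
theorem sing_of_inj {a g : Ordinal.{u}} {x f : ZFSet.{u}} (hf : ODp x f)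
    (ha : Order.IsSuccLimit a) (hg : g < a)
    (hdom : ∀ i < a, ∃ j < g, ZFSet.pair i.toZFSet j.toZFSet ∈ f)
    (hinj : ∀ x y z, ZFSet.pair x z ∈ f → ZFSet.pair y z ∈ f → x = y) : SingP x a := by
  have hsub : recd a g f ⊆ Set.Iio a := fun x hx => hx.1
  have e : ords (toZ a (recd a g f)) = recd a g f := by
    rw [ords_toZ]
    ext x
    exact ⟨fun h => h.1, fun h => ⟨h, h.1⟩⟩
  obtain ⟨v, hv⟩ := exists_OT (recd a g f) a hsub
  refine ⟨toZ a (recd a g f), ODp_recd hf, ?_, ?_, v, (recd_OT hinj hv).trans_lt hg,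
    by rw [e]; exact hv⟩
  · intro x hx
    obtain ⟨b, hb, -, rfl⟩ := mem_toZ.1 hx
    exact toZFSet_mem_toZFSet_iff.2 hb
  · rw [e]
    intro b hb
    obtain ⟨c, hc, hbc⟩ := recd_cofinal hdom _ (ha.succ_lt hb)
    exact ⟨c, hc, (Order.lt_succ b).trans_le hbc, hc.1⟩

/-- singularity in `HOD_x` for a small parameter `x` -/
theorem not_dfReg {a t : Ordinal.{u}} {x : ZFSet.{u}} (h : SingP x a) (hx : x ∈ ZFSet.vonNeumann t)
    (ht : (ZFSet.vonNeumann t).card < a.card) : ¬ DfReg a := by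
  obtain ⟨D, h1, h2, h3, v, hv, h4⟩ := h
  intro h
  exact absurd hv (not_lt.2 (h t ht x hx D h1 h2 h3 v h4))

theorem empty_mem : (∅ : ZFSet.{u}) ∈ ZFSet.vonNeumann (1 : Ordinal.{u}) := by
  rw [ZFSet.mem_vonNeumann, ZFSet.rank_empty]
  exact zero_lt_one

theorem card_V_one : (ZFSet.vonNeumann (1 : Ordinal.{u})).card = 1 := by
  have e1 : ZFSet.vonNeumann (1 : Ordinal.{u}) = {∅} := by
    ext z
    rw [ZFSet.mem_vonNeumann, Order.lt_one_iff, ZFSet.mem_singleton]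
    constructor
    · intro h0
      rw [ZFSet.eq_empty]
      intro y hy
      have h1 := ZFSet.rank_lt_of_mem hy
      rw [h0] at h1
      exact not_lt_zero h1
    · rintro rfl
      exact ZFSet.rank_empty
  rw [e1, ZFSet.card_singleton]

/-! ### Closed unbounded sets -/

/-- the limit ordinals between `g` and the regular cardinal `l` -/
theorem club_lim {l : Cardinal.{u}} (hl : l.IsRegular) (h0 : ℵ₀ < l) {g : Ordinal.{u}}
    (hg : g < l.ord) : Club l.ord {a | a < l.ord ∧ g < a ∧ Order.IsSuccLimit a} := by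
  refine ⟨fun a ha => ha.1, ?_, ?_⟩
  · intro b hb
    have h1 : max b g + ω < l.ord := by
      rw [lt_ord, card_add, card_omega0]
      refine add_lt_of_lt hl.aleph0_le ?_ h0
      exact lt_ord.1 (max_lt hb hg)
    have h2 : max b g < max b g + ω := by
      conv_lhs => rw [← add_zero (max b g)]
      exact (add_lt_add_iff_left _).2 omega0_pos
    refine ⟨max b g + ω, ⟨h1, (le_max_right _ _).trans_lt h2, ?_⟩, (le_max_left _ _).trans_lt h2⟩
    exact isSuccLimit_add _ isSuccLimit_omega0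
  · intro d hd hd0 h
    obtain ⟨c, hc, -, hcd⟩ := h 0 (pos_iff_ne_zero.2 hd0)
    refine ⟨hd, hc.2.1.trans hcd, ?_⟩
    rw [Order.isSuccLimit_iff]
    refine ⟨not_isMin_iff.2 ⟨0, pos_iff_ne_zero.2 hd0⟩, ?_⟩
    rw [Order.isSuccPrelimit_iff_succ_lt]
    intro b hb
    obtain ⟨c, -, hbc, hcd⟩ := h b hb
    exact (Order.succ_le_of_lt hbc).trans_lt hcd

/-- the limit ordinals between `g` and the regular cardinal `l` are stationary -/
theorem stat_lim (hCI : S_CI.{u}) {l : Cardinal.{u}} (hl : l.IsRegular) (h0 : ℵ₀ < l)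
    {g : Ordinal.{u}} (hg : g < l.ord) : Stat l.ord {a | a < l.ord ∧ g < a ∧ Order.IsSuccLimit a} := by
  intro C hC
  have h2 : #(ULift.{u} Bool) < l := by
    rw [mk_uLift, mk_bool]
    exact (by simpa using (natCast_lt_aleph0 (n := 2)).trans h0)
  have h1 := hCI l hl h0 (ULift.{u} Bool)
    (fun j => if j.down then C else {a | a < l.ord ∧ g < a ∧ Order.IsSuccLimit a}) h2 (by
      rintro ⟨j⟩
      cases j
      · simpa using club_lim hl h0 hg
      · simpa using hC)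
  obtain ⟨c, hc, -⟩ := h1.2.1 g hg
  have h3 := hc.2 ⟨true⟩
  have h4 := hc.2 ⟨false⟩
  simp only [if_true] at h3
  simp only [Bool.false_eq_true, if_false] at h4
  exact ⟨c, h3, h4⟩

/-- a stationary set contains elements of a club above a given ordinal -/
theorem stat_above {l g : Ordinal.{u}} (hg : g < l) {S : Set Ordinal.{u}} (hS : Stat l S) :
    Stat l {a | a ∈ S ∧ g < a} := by
  intro C hC
  have h1 : Club l {a | a ∈ C ∧ g < a} := by
    refine ⟨fun a ha => hC.1 a ha.1, fun b hb => ?_, fun d hd hd0 h => ?_⟩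
    · obtain ⟨c, hc, hbc⟩ := hC.2.1 (max b g) (max_lt hb hg)
      exact ⟨c, ⟨hc, (le_max_right _ _).trans_lt hbc⟩, (le_max_left _ _).trans_lt hbc⟩
    · obtain ⟨c, hc, -, hcd⟩ := h 0 (pos_iff_ne_zero.2 hd0)
      refine ⟨hC.2.2 d hd hd0 fun b hb => ?_, hc.2.trans hcd⟩
      obtain ⟨c, hc, h1, h2⟩ := h b hb
      exact ⟨c, hc.1, h1, h2⟩
  obtain ⟨a, ha, haS⟩ := hS _ h1
  exact ⟨a, ha.1, haS, ha.2⟩

theorem stat_mono {l : Ordinal.{u}} {S S' : Set Ordinal.{u}} (hS : Stat l S) (h : ∀ a < l, a ∈ S → a ∈ S') :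
    Stat l S' := by
  intro C hC
  obtain ⟨a, ha, haS⟩ := hS C hC
  exact ⟨a, ha, h a (hC.1 a ha) haS⟩

/-- there are arbitrarily large singular cardinals -/
theorem exists_sing (d : Cardinal.{u}) : ∃ g : Cardinal.{u}, d < g ∧ SingC g.ord := by
  have hlim : Order.IsSuccLimit (d.ord + ω) := isSuccLimit_add _ isSuccLimit_omega0
  refine ⟨ℵ_ (d.ord + ω), ?_, ?_⟩
  · have h1 : d.ord < d.ord + ω := by
      conv_lhs => rw [← add_zero d.ord]
      exact (add_lt_add_iff_left _).2 omega0_pos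
    have h2 : d.ord < ω_ (d.ord + ω) := h1.trans_le (Ordinal.le_omega_self _)
    have h3 := lt_ord.1 (show d.ord < (ℵ_ (d.ord + ω)).ord by rw [ord_aleph]; exact h2)
    rwa [card_ord] at h3
  · have hcof : (ω_ (d.ord + ω)).cof = ℵ₀ := by
      rw [cof_omega hlim, cof_add _ omega0_ne_zero, cof_omega0]
    refine ⟨by rw [card_ord], by rw [card_ord]; exact aleph0_le_aleph _, ?_⟩
    rw [card_ord, ord_aleph, hcof]
    rw [← aleph_zero, aleph_lt_aleph]
    exact hlim.bot_lt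

end Pool.Agent.NH49.EX
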