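import Pool.Agent.NH49.EX.Base
import Pool.Agent.NH86.HD.PG
import Pool.Agent.NH86.HD.UNI
import Pool.Agent.NH86.HD.DCA
import Pool.Agent.NH86.HD.HP
import Pool.Agent.NH86.HD.CI
import Pool.Agent.NH86.HD.NTH
import Pool.Agent.NH86.HD.PAR
import Pool.Agent.NH86.HD.VTH

/-!
# Successors computed correctly by small ordinal definable families, and measurability in HOD
-/

set_option autoImplicit false

open Ordinal Cardinal Set

universe u

namespace Pool.Agent.NH49.EX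

open Pool.Agent.NH86.HD

/-- `k` is measurable in HOD: some element `U` of HOD is, in HOD, a nonprincipal `k`-complete ultrafilter
on `k` -/
def MeasH (k : Ordinal.{u}) : Prop := ∃ U : ZFSet.{u}, HOD U ∧ (∀ x ∈ U, x ⊆ k.toZFSet) ∧
  (∀ X : Set Ordinal.{u}, HOD (toZ k X) → (toZ k X ∈ U ↔ toZ k Xᶜ ∉ U)) ∧
  (∀ a < k, toZ k {a} ∉ U) ∧
  ∀ b < k, ∀ S : Ordinal.{u} → Set Ordinal.{u}, HOD (sq k b S) → (∀ i < b, toZ k (S i) ∈ U) →
    toZ k {a | ∀ i < b, a ∈ S i} ∈ U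

/-- the successor of the cardinal `g` is computed correctly by ordinal definable families of at most `m`
sets: for every `a < g^+` such a family has a member that maps the ordinals below `a` in a one-to-one way
to the ordinals below `g` -/
def BlSucc (m g : Cardinal.{u}) : Prop := ∀ a < (Order.succ g).ord, ∃ X : ZFSet.{u}, OD X ∧ X.card ≤ m ∧
  ∃ f ∈ X, (∀ i < a, ∃ j < g.ord, ZFSet.pair i.toZFSet j.toZFSet ∈ f) ∧
    ∀ x y z, ZFSet.pair x z ∈ f → ZFSet.pair y z ∈ f → x = y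

namespace Blur

/-! ### Relations -/

/-- `f` is one-to-one on `a`, with values in `g` -/
def Inj (a g f : ZFSet.{u}) : Prop :=
  (∀ i, i ∈ a → ∃ j, j ∈ g ∧ ZFSet.pair i j ∈ f) ∧
    ∀ x y z, ZFSet.pair x z ∈ f → ZFSet.pair y z ∈ f → x = y

/-- `j` is the first value of `f` at `i` -/
def Val (f i j : ZFSet.{u}) : Prop := ZFSet.pair i j ∈ f ∧ ∀ j', j' ∈ j → ¬ ZFSet.pair i j' ∈ f

theorem df_inj (a g f : ℕ) : Df.{u} fun s => Inj (s a) (s g) (s f) := by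
  refine Df.and ?_ ?_
  · refine Df.all (R := fun i s => i ∈ s a → ∃ j, j ∈ s g ∧ ZFSet.pair i j ∈ s f) ?_
    refine (Df.mem 0 (a + 1)).imp ?_
    exact Df.ex (R := fun j s => j ∈ s (g + 1) ∧ ZFSet.pair (s 0) j ∈ s (f + 1))
      ((Df.mem 0 (g + 1 + 1)).and (Df.pairMem 1 0 (f + 1 + 1)))
  · refine Df.all (R := fun x s => ∀ y z, ZFSet.pair x z ∈ s f → ZFSet.pair y z ∈ s f → x = y) ?_
    refine Df.all (R := fun y s => ∀ z, ZFSet.pair (s 0) z ∈ s (f + 1) →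
      ZFSet.pair y z ∈ s (f + 1) → s 0 = y) ?_
    refine Df.all (R := fun z s => ZFSet.pair (s 1) z ∈ s (f + 1 + 1) →
      ZFSet.pair (s 0) z ∈ s (f + 1 + 1) → s 1 = s 0) ?_
    exact (Df.pairMem 2 0 (f + 1 + 1 + 1)).imp ((Df.pairMem 1 0 (f + 1 + 1 + 1)).imp (Df.eq 2 1))

theorem df_val (f i j : ℕ) : Df.{u} fun s => Val (s f) (s i) (s j) :=
  (Df.pairMem i j f).and (Df.all (R := fun j' s => j' ∈ s j → ¬ ZFSet.pair (s i) j' ∈ s f)
    ((Df.mem 0 (j + 1)).imp (Df.pairMem (i + 1) 0 (f + 1)).not))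

/-- the relation for the formula `φ`; variables: `X`, `a`, `m`, `g` and the parameters -/
def Rel (φ : Fm) (s : ℕ → ZFSet.{u}) : Prop :=
  (∀ z, Sat φ (cns z fun n => s (2 * n + 2)) ↔ z = s 0) ∧
    ((s 0).card ≤ (s 3).card ∧ ∃ f, f ∈ s 0 ∧ Inj (s 1) (s 5) f)

theorem df_rel (φ : Fm) : Df.{u} (Rel φ) := by
  refine Df.and ?_ (Df.and ?_ ?_)
  · refine Df.all (R := fun z s => Sat φ (cns z fun n => s (2 * n + 2)) ↔ z = s 0) ?_
    refine Df.iff ?_ (Df.eq 0 1)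
    refine Df.congr (Df.ren (P := fun s => Sat φ s) ⟨φ, fun _ => Iff.rfl⟩
      (cns 0 fun n => 2 * n + 3)) fun s => ?_
    have : (fun n => s (cns 0 (fun n => 2 * n + 3) n)) = cns (s 0) fun n => s (2 * n + 3) := by
      funext n
      cases n <;> rfl
    rw [this]
  · exact Df.sub2 (R := fun x y => x.card ≤ y.card) t_DCA 0 3
  · exact Df.ex (R := fun f s => f ∈ s 0 ∧ Inj (s 1) (s 5) f)
      ((Df.mem 0 1).and (df_inj 2 6 0))

theorem mix4 (t : ℕ → ZFSet.{u}) (p : ℕ → Ordinal.{u}) (y : ZFSet.{u}) :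
    cns y (mix t p) 5 = t 2 := rfl

theorem rel_iff (φ : Fm) (y : ZFSet.{u}) (t : ℕ → ZFSet.{u}) (p : ℕ → Ordinal.{u}) :
    Rel φ (cns y (mix t p)) ↔ (∀ z, Sat φ (cns z (oz p)) ↔ z = y) ∧
      (y.card ≤ (t 1).card ∧ ∃ f, f ∈ y ∧ Inj (t 0) (t 2) f) := by
  unfold Rel
  rw [PG.sat_arg, PG.mix0, PG.mix2, mix4]
  rfl

theorem rel_fun (φ : Fm) (t : ℕ → ZFSet.{u}) (p : ℕ → Ordinal.{u}) (y y' : ZFSet.{u})
    (h : Rel φ (cns y (mix t p))) (h' : Rel φ (cns y' (mix t p))) : y = y' := by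
  rw [rel_iff] at h h'
  exact (h'.1 y).1 ((h.1 y).2 rfl)

/-! ### Pigeonhole for the formulas -/

theorem inj_iff {a g : Ordinal.{u}} {f : ZFSet.{u}} : Inj a.toZFSet g.toZFSet f ↔
    (∀ i < a, ∃ j < g, ZFSet.pair i.toZFSet j.toZFSet ∈ f) ∧
      ∀ x y z, ZFSet.pair x z ∈ f → ZFSet.pair y z ∈ f → x = y := by
  unfold Inj
  refine and_congr_left fun _ => ?_
  constructor
  · intro h i hi
    obtain ⟨j, hj, h1⟩ := h _ (toZFSet_mem_toZFSet_iff.2 hi)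
    obtain ⟨j', hj', rfl⟩ := mem_toZFSet_iff.1 hj
    exact ⟨j', hj', h1⟩
  · intro h i hi
    obtain ⟨i', hi', rfl⟩ := mem_toZFSet_iff.1 hi
    obtain ⟨j, hj, h1⟩ := h i' hi'
    exact ⟨j.toZFSet, toZFSet_mem_toZFSet_iff.2 hj, h1⟩

theorem club_above {l : Cardinal.{u}} (hl : l.IsRegular) (h0 : ℵ₀ < l) {g : Ordinal.{u}}
    (hg : g < l.ord) : Club l.ord {a | a < l.ord ∧ g < a} := by
  have hlim : Order.IsSuccLimit l.ord := Cardinal.isSuccLimit_ord h0.le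
  refine ⟨fun a ha => ha.1, ?_, ?_⟩
  · intro b hb
    refine ⟨Order.succ (max b g), ⟨hlim.succ_lt (max_lt hb hg), ?_⟩, ?_⟩
    · exact (le_max_right _ _).trans_lt (Order.lt_succ _)
    · exact (le_max_left _ _).trans_lt (Order.lt_succ _)
  · intro d hd hd0 h
    obtain ⟨c, hc, -, hcd⟩ := h 0 (pos_iff_ne_zero.2 hd0)
    exact ⟨hd, hc.2.trans hcd⟩

theorem pigeon {l : Cardinal.{u}} (hl : l.IsRegular) (h0 : ℵ₀ < l) (Q : Fm → Ordinal.{u} → Prop)
    (hQ : ∀ a < l.ord, ∃ φ, Q φ a) : ∃ φ, ∀ a < l.ord, ∃ a', a < a' ∧ a' < l.ord ∧ Q φ a' := by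
  by_contra hc
  push Not at hc
  choose b hb hb' using hc
  have h1 := t_CI l hl h0 (ULift.{u} Fm) (fun φ => {a | a < l.ord ∧ b φ.down < a})
    (PG.card_fm.trans_lt h0) fun φ => club_above hl h0 (hb φ.down)
  have hpos : (0 : Ordinal.{u}) < l.ord := by
    rw [lt_ord, card_zero]
    exact Cardinal.aleph0_pos.trans h0
  obtain ⟨c, hc, -⟩ := h1.2.1 0 hpos
  obtain ⟨φ, hφ⟩ := hQ c hc.1
  exact hb' φ c (hc.2 ⟨φ⟩).2 hc.1 hφ

theorem inj_mono {a a' g : Ordinal.{u}} (h : a ≤ a') {f : ZFSet.{u}}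
    (hf : Inj a'.toZFSet g.toZFSet f) : Inj a.toZFSet g.toZFSet f := by
  rw [inj_iff] at hf ⊢
  exact ⟨fun i hi => hf.1 i (hi.trans_le h), hf.2⟩

/-- the parameters -/
noncomputable def pr (m g : Cardinal.{u}) : ℕ → Ordinal.{u} := cns m.ord (cns g.ord fun _ => 0)

/-- a uniform choice of the families -/
theorem exists_family {m g : Cardinal.{u}} (hg : ℵ₀ ≤ g) (h : BlSucc m g) :
    ∃ (R' : (ℕ → ZFSet.{u}) → Prop) (F : Ordinal.{u} → ZFSet.{u}), Df R' ∧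
      ∀ a < (Order.succ g).ord, (∀ y, R' (cns y (oz (cns a (pr m g)))) ↔ y = F a) ∧
        (F a).card ≤ m ∧ ∃ f ∈ F a, Inj a.toZFSet g.ord.toZFSet f := by
  have hl : (Order.succ g).IsRegular := isRegular_succ hg
  have h0 : ℵ₀ < Order.succ g := hg.trans_lt (Order.lt_succ g)
  obtain ⟨φ, hφ⟩ := pigeon hl h0 (fun φ a => ∃ (p : ℕ → Ordinal.{u}) (X : ZFSet.{u}),
    (∀ z, Sat φ (cns z (oz p)) ↔ z = X) ∧ X.card ≤ m ∧
      ∃ f ∈ X, Inj a.toZFSet g.ord.toZFSet f) (by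
    intro a ha
    obtain ⟨X, ⟨φ, p, hφ⟩, hX, f, hf, hf'⟩ := h a ha
    exact ⟨φ, p, X, hφ, hX, f, hf, inj_iff.2 hf'⟩)
  obtain ⟨R', hR', h1, h2, h3⟩ := t_UNI (Rel φ) (df_rel φ) (rel_fun φ)
  have t0 : ∀ a : Ordinal.{u}, oz (cns a (pr m g)) 0 = a.toZFSet := fun a => rfl
  have t1 : ∀ a : Ordinal.{u}, (oz (cns a (pr m g)) 1).card = m := by
    intro a
    change (m.ord.toZFSet).card = m
    rw [Ordinal.card_toZFSet, Cardinal.card_ord]
  have t2 : ∀ a : Ordinal.{u}, oz (cns a (pr m g)) 2 = g.ord.toZFSet := fun a => rfl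
  have hex : ∀ a, ∃ y, a < (Order.succ g).ord → R' (cns y (oz (cns a (pr m g)))) := by
    intro a
    by_cases ha : a < (Order.succ g).ord
    · obtain ⟨a', haa', -, p, X, hX, hXm, f, hf, hfi⟩ := hφ a ha
      obtain ⟨y, hy⟩ := h3 (oz (cns a (pr m g))) ⟨p, X, by
        rw [rel_iff]
        refine ⟨hX, ?_, f, hf, ?_⟩
        · rw [t1]
          exact hXm
        · rw [t0, t2]
          exact inj_mono haa'.le hfi⟩
      exact ⟨y, fun _ => hy⟩
    · exact ⟨∅, fun h => absurd h ha⟩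
  choose F hF using hex
  refine ⟨R', F, hR', fun a ha => ⟨fun y => ⟨fun h => h2 _ _ _ h (hF a ha), ?_⟩, ?_⟩⟩
  · rintro rfl
    exact hF a ha
  · obtain ⟨p, hp⟩ := h1 _ _ (hF a ha)
    rw [rel_iff, t1, t0, t2] at hp
    exact hp.2

/-! ### The relations for the proof -/

/-- `j` is the value at `i` of some member of the family for `a` -/
def TrR (R' : (ℕ → ZFSet.{u}) → Prop) (i j a : ZFSet.{u}) (w : ℕ → ZFSet.{u}) : Prop :=
  ∃ X, R' (cns X (cns a fun n => w (2 * n + 3))) ∧ ∃ f, f ∈ X ∧ (Inj a (w 5) f ∧ Val f i j)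

/-- `Z` is an element of the ultrafilter -/
def InU (ψ : Fm) (Z : ZFSet.{u}) (w : ℕ → ZFSet.{u}) : Prop :=
  ∃ U, Sat ψ (cns U fun n => w (2 * n)) ∧ Z ∈ U

def TiR (R' : (ℕ → ZFSet.{u}) → Prop) (ψ : Fm) (i j : ZFSet.{u}) (w : ℕ → ZFSet.{u}) : Prop :=
  ∃ Z, (∀ a, a ∈ Z ↔ (a ∈ w 1 ∧ TrR R' i j a w)) ∧ InU ψ Z w

def TsR (R' : (ℕ → ZFSet.{u}) → Prop) (ψ : Fm) (j : ZFSet.{u}) (w : ℕ → ZFSet.{u}) : Prop :=
  ∃ Z, (∀ i, i ∈ Z ↔ (i ∈ w 1 ∧ TiR R' ψ i j w)) ∧ InU ψ Z w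

def InR (R' : (ℕ → ZFSet.{u}) → Prop) (ψ : Fm) (i : ZFSet.{u}) (w : ℕ → ZFSet.{u}) : Prop :=
  ∀ j, j ∈ w 5 → (TiR R' ψ i j w ↔ TsR R' ψ j w)

def BiR (R' : (ℕ → ZFSet.{u}) → Prop) (ψ : Fm) (i a : ZFSet.{u}) (w : ℕ → ZFSet.{u}) : Prop :=
  ∀ j, j ∈ w 5 → (TrR R' i j a w ↔ TsR R' ψ j w)

theorem df_Tr {R' : (ℕ → ZFSet.{u}) → Prop} (hR : Df R') (i j a c : ℕ) :
    Df fun s => TrR R' (s i) (s j) (s a) fun n => s (n + c) := by
  refine Df.ex (R := fun X s => R' (cns X (cns (s a) fun n => s (2 * n + 3 + c))) ∧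
    ∃ f, f ∈ X ∧ (Inj (s a) (s (5 + c)) f ∧ Val f (s i) (s j))) ?_
  refine Df.and ?_ ?_
  · refine (hR.ren (cns 0 (cns (a + 1) fun n => 2 * n + 3 + c + 1))).congr fun s => ?_
    have e : (fun n => s (cns 0 (cns (a + 1) fun n => 2 * n + 3 + c + 1) n)) =
        cns (s 0) (cns (s (a + 1)) fun n => s (2 * n + 3 + c + 1)) := by
      funext n
      rcases n with _ | _ | n <;> rfl
    rw [e]
  · refine Df.ex (R := fun f s => f ∈ s 0 ∧ (Inj (s (a + 1)) (s (5 + c + 1)) f ∧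
      Val f (s (i + 1)) (s (j + 1)))) ?_
    exact (Df.mem 0 1).and ((df_inj (a + 1 + 1) (5 + c + 1 + 1) 0).and
      (df_val 0 (i + 1 + 1) (j + 1 + 1)))

theorem df_InU (ψ : Fm) (z c : ℕ) : Df.{u} fun s => InU ψ (s z) fun n => s (n + c) := by
  refine Df.ex (R := fun U s => Sat ψ (cns U fun n => s (2 * n + c)) ∧ s z ∈ U) ?_
  refine Df.and ?_ (Df.mem (z + 1) 0)
  refine (Df.ren (P := fun s => Sat ψ s) ⟨ψ, fun _ => Iff.rfl⟩
    (cns 0 fun n => 2 * n + c + 1)).congr fun s => ?_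
  have e : (fun n => s (cns 0 (fun n => 2 * n + c + 1) n)) =
      cns (s 0) fun n => s (2 * n + c + 1) := by
    funext n
    cases n <;> rfl
  rw [e]

theorem df_Ti {R' : (ℕ → ZFSet.{u}) → Prop} (hR : Df R') (ψ : Fm) (i j c : ℕ) :
    Df fun s => TiR R' ψ (s i) (s j) fun n => s (n + c) := by
  refine Df.ex (R := fun Z s => (∀ a, a ∈ Z ↔ (a ∈ s (1 + c) ∧
    TrR R' (s i) (s j) a fun n => s (n + c))) ∧ InU ψ Z fun n => s (n + c)) ?_
  refine Df.and ?_ (df_InU ψ 0 (c + 1))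
  refine Df.all (R := fun a s => a ∈ s 0 ↔ (a ∈ s (1 + c + 1) ∧
    TrR R' (s (i + 1)) (s (j + 1)) a fun n => s (n + (c + 1)))) ?_
  exact (Df.mem 0 1).iff ((Df.mem 0 (1 + c + 1 + 1)).and (df_Tr hR (i + 1 + 1) (j + 1 + 1) 0 (c + 1 + 1)))

theorem df_Ts {R' : (ℕ → ZFSet.{u}) → Prop} (hR : Df R') (ψ : Fm) (j c : ℕ) :
    Df fun s => TsR R' ψ (s j) fun n => s (n + c) := by
  refine Df.ex (R := fun Z s => (∀ i, i ∈ Z ↔ (i ∈ s (1 + c) ∧
    TiR R' ψ i (s j) fun n => s (n + c))) ∧ InU ψ Z fun n => s (n + c)) ?_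
  refine Df.and ?_ (df_InU ψ 0 (c + 1))
  refine Df.all (R := fun i s => i ∈ s 0 ↔ (i ∈ s (1 + c + 1) ∧
    TiR R' ψ i (s (j + 1)) fun n => s (n + (c + 1)))) ?_
  exact (Df.mem 0 1).iff ((Df.mem 0 (1 + c + 1 + 1)).and (df_Ti hR ψ 0 (j + 1 + 1) (c + 1 + 1)))

theorem df_In {R' : (ℕ → ZFSet.{u}) → Prop} (hR : Df R') (ψ : Fm) (i c : ℕ) :
    Df fun s => InR R' ψ (s i) fun n => s (n + c) := by
  refine Df.all (R := fun j s => j ∈ s (5 + c) → (TiR R' ψ (s i) j (fun n => s (n + c)) ↔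
    TsR R' ψ j fun n => s (n + c))) ?_
  exact (Df.mem 0 (5 + c + 1)).imp ((df_Ti hR ψ (i + 1) 0 (c + 1)).iff (df_Ts hR ψ 0 (c + 1)))

theorem df_Bi {R' : (ℕ → ZFSet.{u}) → Prop} (hR : Df R') (ψ : Fm) (i a c : ℕ) :
    Df fun s => BiR R' ψ (s i) (s a) fun n => s (n + c) := by
  refine Df.all (R := fun j s => j ∈ s (5 + c) → (TrR R' (s i) j (s a) (fun n => s (n + c)) ↔
    TsR R' ψ j fun n => s (n + c))) ?_
  exact (Df.mem 0 (5 + c + 1)).imp ((df_Tr hR (i + 1) 0 (a + 1) (c + 1)).iff (df_Ts hR ψ 0 (c + 1)))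

/-! ### Sets in HOD -/

theorem HOD.of_mem {x y : ZFSet.{u}} (h : HOD x) (hy : y ∈ x) : HOD y := by
  cases h with
  | mk _ _ h => exact h y hy

theorem hod_set {L : Ordinal.{u}} {X : Set Ordinal.{u}} {P : (ℕ → ZFSet.{u}) → Prop}
    (hP : Df P) (p : ℕ → Ordinal.{u}) (h : ∀ a < L, a ∈ X ↔ P (oz (cns a p))) :
    HOD (toZ L X) := by
  have h1 : HOD (Pool.Agent.NH86.HD.sq L 1 fun _ => X) := by
    refine t_HP L 1 _ (fun s => P fun n => s (n + 1)) p (hP.ren fun n => n + 1) fun i _ a ha => ?_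
    exact h a ha
  have h2 : ZFSet.pair (0 : Ordinal.{u}).toZFSet (toZ L X) ∈ Pool.Agent.NH86.HD.sq L 1 fun _ => X := by
    unfold Pool.Agent.NH86.HD.sq
    rw [ZFSet.mem_range]
    exact ⟨⟨0, Set.mem_Iio.2 zero_lt_one⟩, rfl⟩
  have h3 := HOD.of_mem h1 h2
  have h4 : ({(0 : Ordinal.{u}).toZFSet, toZ L X} : ZFSet.{u}) ∈
      ZFSet.pair (0 : Ordinal.{u}).toZFSet (toZ L X) := by
    simp [ZFSet.pair]
  exact HOD.of_mem (HOD.of_mem h3 h4) (by simp)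

theorem ex_toZ {k : Ordinal.{u}} (Φ Ψ : ZFSet.{u} → Prop) :
    (∃ Z, (∀ a, a ∈ Z ↔ (a ∈ k.toZFSet ∧ Φ a)) ∧ Ψ Z) ↔ Ψ (toZ k {a | Φ a.toZFSet}) := by
  have key : ∀ x, x ∈ toZ k {a | Φ a.toZFSet} ↔ (x ∈ k.toZFSet ∧ Φ x) := by
    intro x
    rw [mem_toZ]
    constructor
    · rintro ⟨a, ha, ha', rfl⟩
      exact ⟨toZFSet_mem_toZFSet_iff.2 ha, ha'⟩
    · rintro ⟨hx, hx'⟩
      obtain ⟨a, ha, rfl⟩ := mem_toZFSet_iff.1 hx
      exact ⟨a, ha, hx', rfl⟩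
  constructor
  · rintro ⟨Z, hZ, h⟩
    have e : Z = toZ k {a | Φ a.toZFSet} := by
      ext x
      rw [hZ, key]
    rwa [← e]
  · intro h
    exact ⟨_, key, h⟩

/-! ### The ultrafilter -/

section ultra

variable {k : Ordinal.{u}} {U : ZFSet.{u}}
  (hU1 : ∀ X : Set Ordinal.{u}, HOD (toZ k X) → (toZ k X ∈ U ↔ toZ k Xᶜ ∉ U))
  (hU2 : ∀ a < k, toZ k {a} ∉ U)
  (hU3 : ∀ b < k, ∀ S : Ordinal.{u} → Set Ordinal.{u}, HOD (Pool.Agent.NH86.HD.sq k b S) →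
    (∀ i < b, toZ k (S i) ∈ U) → toZ k {a | ∀ i < b, a ∈ S i} ∈ U)

include hU3 in
/-- intersections of definable families -/
theorem inter {b : Ordinal.{u}} (hb : b < k) {S : Ordinal.{u} → Set Ordinal.{u}}
    {P : (ℕ → ZFSet.{u}) → Prop} (hP : Df P) (p : ℕ → Ordinal.{u})
    (h : ∀ i < b, ∀ a < k, a ∈ S i ↔ P (oz (cns i (cns a p)))) (hS : ∀ i < b, toZ k (S i) ∈ U) :
    toZ k {a | ∀ i < b, a ∈ S i} ∈ U :=
  hU3 b hb S (t_HP k b S P p hP h) hS

include hU3 in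
theorem univ_mem (hk : 0 < k) : toZ k Set.univ ∈ U := by
  have h := inter hU3 (b := 0) hk (S := fun _ => Set.univ) Df.true (fun _ => 0)
    (fun i hi => absurd hi not_lt_zero) (fun i hi => absurd hi not_lt_zero)
  have e : {a : Ordinal.{u} | ∀ i < (0 : Ordinal.{u}), a ∈ (Set.univ : Set Ordinal.{u})} = Set.univ := by
    ext a
    simp
  rwa [e] at h

theorem hod_univ : HOD (toZ k Set.univ) :=
  hod_set Df.true (fun _ => 0) fun a _ => by simp

include hU1 hU3 in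
theorem empty_notMem (hk : 0 < k) : toZ k ∅ ∉ U := by
  have h := (hU1 Set.univ hod_univ).1 (univ_mem hU3 hk)
  rwa [Set.compl_univ] at h

include hU3 in
theorem inter2 (hk : 2 < k) {X Y : Set Ordinal.{u}} {P Q : (ℕ → ZFSet.{u}) → Prop} (hP : Df P)
    (hQ : Df Q) (p : ℕ → Ordinal.{u}) (hX : ∀ a < k, a ∈ X ↔ P (oz (cns a p)))
    (hY : ∀ a < k, a ∈ Y ↔ Q (oz (cns a p))) (hXU : toZ k X ∈ U) (hYU : toZ k Y ∈ U) :
    toZ k {a | a ∈ X ∧ a ∈ Y} ∈ U := by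
  have hne : Df.{u} fun s => ∃ z, z ∈ s 0 := Df.ex (R := fun z s => z ∈ s 0) (Df.mem 0 1)
  have h := inter hU3 (b := 2) hk
    (S := fun i => {a | (i = 0 → a ∈ X) ∧ (i ≠ 0 → a ∈ Y)})
    (P := fun s => ((¬ ∃ z, z ∈ s 0) → P fun n => s (n + 1)) ∧
      ((∃ z, z ∈ s 0) → Q fun n => s (n + 1)))
    ((hne.not.imp (hP.ren fun n => n + 1)).and (hne.imp (hQ.ren fun n => n + 1))) p ?_ ?_
  · have e : {a : Ordinal.{u} | ∀ i < (2 : Ordinal.{u}), a ∈ {a | (i = 0 → a ∈ X) ∧ (i ≠ 0 → a ∈ Y)}} =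
        {a | a ∈ X ∧ a ∈ Y} := by
      ext a
      constructor
      · intro h
        exact ⟨(h 0 two_pos).1 rfl, (h 1 one_lt_two).2 one_ne_zero⟩
      · rintro ⟨h1, h2⟩ i -
        exact ⟨fun _ => h1, fun _ => h2⟩
    rwa [e] at h
  · intro i _ a ha
    have e : (∃ z, z ∈ oz (cns i (cns a p)) 0) ↔ i ≠ 0 := by
      change (∃ z, z ∈ i.toZFSet) ↔ i ≠ 0
      constructor
      · rintro ⟨z, hz⟩ rfl
        rw [toZFSet_zero] at hz
        exact ZFSet.notMem_empty z hz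
      · intro hi
        exact ⟨(0 : Ordinal.{u}).toZFSet, toZFSet_mem_toZFSet_iff.2 (pos_iff_ne_zero.2 hi)⟩
    change ((i = 0 → a ∈ X) ∧ (i ≠ 0 → a ∈ Y)) ↔ ((¬ ∃ z, z ∈ oz (cns i (cns a p)) 0) →
      P (oz (cns a p))) ∧ ((∃ z, z ∈ oz (cns i (cns a p)) 0) → Q (oz (cns a p)))
    rw [e, ← hX a ha, ← hY a ha, not_ne_iff]
  · intro i _
    by_cases hi : i = 0
    · have e : {a : Ordinal.{u} | (i = 0 → a ∈ X) ∧ (i ≠ 0 → a ∈ Y)} = X := by
        ext a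
        exact ⟨fun h => h.1 hi, fun h => ⟨fun _ => h, fun h' => absurd hi h'⟩⟩
      rw [e]
      exact hXU
    · have e : {a : Ordinal.{u} | (i = 0 → a ∈ X) ∧ (i ≠ 0 → a ∈ Y)} = Y := by
        ext a
        exact ⟨fun h => h.2 hi, fun h => ⟨fun h' => absurd h' hi, fun _ => h⟩⟩
      rw [e]
      exact hYU

include hU1 hU2 hU3 in
/-- final segments are in the ultrafilter -/
theorem final_mem {b : Ordinal.{u}} (hb : b < k) : toZ k {a | ∀ i < b, a ≠ i} ∈ U := by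
  refine inter hU3 hb (S := fun i => {a | a ≠ i}) (P := fun s => ¬ s 1 = s 0) (Df.eq 1 0).not
    (fun _ => 0) ?_ ?_
  · intro i _ a _
    change a ≠ i ↔ ¬ a.toZFSet = i.toZFSet
    rw [toZFSet_injective.eq_iff]
  · intro i hi
    have h1 : HOD (toZ k {i}) := hod_set (P := fun s => s 0 = s 1) (Df.eq 0 1) (cns i fun _ => 0)
      fun a _ => by
        change a = i ↔ a.toZFSet = i.toZFSet
        rw [toZFSet_injective.eq_iff]
    by_contra hc
    exact hU2 i (hi.trans hb) ((hU1 {i} h1).2 hc)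

include hU1 hU2 hU3 in
/-- definable elements of the ultrafilter are unbounded -/
theorem exists_ge (hk : 2 < k) {X : Set Ordinal.{u}} {P : (ℕ → ZFSet.{u}) → Prop} (hP : Df P)
    (p : ℕ → Ordinal.{u}) (hX : ∀ a < k, a ∈ X ↔ P (oz (cns a p))) (hXU : toZ k X ∈ U)
    {b : Ordinal.{u}} (hb : b < k) : ∃ a ∈ X, b ≤ a ∧ a < k := by
  by_contra hc
  push Not at hc
  have hQ : Df.{u} fun s => ∀ i, i ∈ s 1 → ¬ s 0 = i :=
    Df.all (R := fun i s => i ∈ s 1 → ¬ s 0 = i) ((Df.mem 0 2).imp (Df.eq 1 0).not)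
  have h := inter2 hU3 hk (X := X) (Y := {a | ∀ i < b, a ≠ i})
    (P := fun s => P fun n => s (cns 0 (fun n => n + 2) n))
    (Q := fun s => ∀ i, i ∈ s 1 → ¬ s 0 = i) (hP.ren _) hQ (cns b p) ?_ ?_ hXU
    (final_mem hU1 hU2 hU3 hb)
  · have e : toZ k {a | a ∈ X ∧ a ∈ {a | ∀ i < b, a ≠ i}} = toZ k ∅ := by
      ext x
      rw [mem_toZ, mem_toZ]
      constructor
      · rintro ⟨a, ha, ⟨h1, h2⟩, -⟩
        have h3 : b ≤ a := by
          by_contra h4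
          rw [not_le] at h4
          exact h2 a h4 rfl
        exact absurd ha (not_lt.2 (hc a h1 h3))
      · rintro ⟨a, -, h1, -⟩
        exact absurd h1 (Set.notMem_empty a)
    rw [e] at h
    exact empty_notMem hU1 hU3 (zero_lt_two.trans hk) h
  · intro a ha
    rw [hX a ha]
    have e : (fun n => oz (cns a (cns b p)) (cns 0 (fun n => n + 2) n)) = oz (cns a p) := by
      funext n
      cases n <;> rfl
    change P (oz (cns a p)) ↔ P (fun n => oz (cns a (cns b p)) (cns 0 (fun n => n + 2) n))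
    rw [e]
  · intro a ha
    change (∀ i < b, a ≠ i) ↔ ∀ i, i ∈ b.toZFSet → ¬ a.toZFSet = i
    constructor
    · intro h i hi
      obtain ⟨i', hi', rfl⟩ := mem_toZFSet_iff.1 hi
      rw [toZFSet_injective.eq_iff]
      exact h i' hi'
    · intro h i hi
      have h1 := h i.toZFSet (toZFSet_mem_toZFSet_iff.2 hi)
      rwa [toZFSet_injective.eq_iff] at h1

end ultra

theorem all_iff {b : Ordinal.{u}} (Φ : ZFSet.{u} → Prop) :
    (∀ j, j ∈ b.toZFSet → Φ j) ↔ ∀ j < b, Φ j.toZFSet := by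
  constructor
  · intro h j hj
    exact h _ (toZFSet_mem_toZFSet_iff.2 hj)
  · intro h j hj
    obtain ⟨j', hj', rfl⟩ := mem_toZFSet_iff.1 hj
    exact h j' hj'

theorem val_unique {f i : ZFSet.{u}} {j j' : Ordinal.{u}} (h : Val f i j.toZFSet)
    (h' : Val f i j'.toZFSet) : j = j' := by
  rcases lt_trichotomy j j' with hlt | heq | hlt
  · exact absurd h.1 (h'.2 _ (toZFSet_mem_toZFSet_iff.2 hlt))
  · exact heq
  · exact absurd h'.1 (h.2 _ (toZFSet_mem_toZFSet_iff.2 hlt))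

theorem exists_val {a g : Ordinal.{u}} {f : ZFSet.{u}}
    (h : ∀ i < a, ∃ j < g, ZFSet.pair i.toZFSet j.toZFSet ∈ f) :
    ∀ i, ∃ j, i < a → (j < g ∧ Val f i.toZFSet j.toZFSet) := by
  intro i
  by_cases hi : i < a
  · obtain ⟨j0, hj0, h0⟩ := h i hi
    obtain ⟨j, ⟨hj, hjf⟩, hmin⟩ := (wellFounded_lt (α := Ordinal.{u})).has_min
      {j | j < g ∧ ZFSet.pair i.toZFSet j.toZFSet ∈ f} ⟨j0, hj0, h0⟩
    refine ⟨j, fun _ => ⟨hj, hjf, fun j' hj' h' => ?_⟩⟩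
    obtain ⟨j'', hj'', rfl⟩ := mem_toZFSet_iff.1 hj'
    exact hmin j'' ⟨hj''.trans hj, h'⟩ hj''
  · exact ⟨0, fun h => absurd h hi⟩

/-- **Theorem.** If the successor of `g` is computed correctly by ordinal definable families of at most
`m < g` sets then `g^+` is not measurable in HOD. -/
theorem not_measH {m g : Cardinal.{u}} (hg : ℵ₀ ≤ g) (hm : m < g) (h : BlSucc m g) :
    ¬ MeasH (Order.succ g).ord := by
  rintro ⟨U, hUH, -, hU1, hU2, hU3⟩
  obtain ⟨R', F, hR, hF⟩ := exists_family hg h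
  obtain ⟨ψ, q, hψ⟩ : OD U := by
    cases hUH with
    | mk _ h _ => exact h
  have hl : (Order.succ g).IsRegular := isRegular_succ hg
  have h0 : ℵ₀ < Order.succ g := hg.trans_lt (Order.lt_succ g)
  have hlim : Order.IsSuccLimit (Order.succ g).ord := Cardinal.isSuccLimit_ord h0.le
  have hgk : g.ord < (Order.succ g).ord := ord_lt_ord.2 (Order.lt_succ g)
  have h2k : (2 : Ordinal.{u}) < (Order.succ g).ord := by
    rw [lt_ord]
    have h3 : ((2 : ℕ) : Ordinal.{u}).card = ((2 : ℕ) : Cardinal.{u}) := Ordinal.card_nat 2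
    have h4 : (2 : Ordinal.{u}).card = ((2 : ℕ) : Cardinal.{u}) := by
      rw [← h3]
      rfl
    rw [h4]
    exact (natCast_lt_aleph0 (n := 2)).trans h0
  set k : Ordinal.{u} := (Order.succ g).ord with hkdef
  set r : ℕ → Ordinal.{u} := fun n => if n % 2 = 0 then q (n / 2) else cns k (pr m g) (n / 2) with hr
  have r1 : oz r 1 = k.toZFSet := rfl
  have r5 : oz r 5 = g.ord.toZFSet := rfl
  have rq : (fun n => oz r (2 * n)) = oz q := by
    funext n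
    change (r (2 * n)).toZFSet = (q n).toZFSet
    rw [hr]
    dsimp only
    rw [if_pos (by omega), show 2 * n / 2 = n by omega]
  have rp : (fun n => oz r (2 * n + 3)) = oz (pr m g) := by
    funext n
    change (r (2 * n + 3)).toZFSet = (pr m g n).toZFSet
    rw [hr]
    dsimp only
    rw [if_neg (by omega), show (2 * n + 3) / 2 = n + 1 by omega]
    rfl
  have hInU : ∀ Z, InU ψ Z (oz r) ↔ Z ∈ U := by
    intro Z
    unfold InU
    rw [rq]
    constructor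
    · rintro ⟨U', h1, h2⟩
      rw [hψ] at h1
      rwa [h1] at h2
    · intro h1
      exact ⟨U, (hψ U).2 rfl, h1⟩
  set tr : Ordinal.{u} → Ordinal.{u} → Ordinal.{u} → Prop := fun i j a =>
    TrR R' i.toZFSet j.toZFSet a.toZFSet (oz r) with htr
  set ti : Ordinal.{u} → Ordinal.{u} → Prop := fun i j => TiR R' ψ i.toZFSet j.toZFSet (oz r)
    with htidef
  set ts : Ordinal.{u} → Prop := fun j => TsR R' ψ j.toZFSet (oz r) with htsdef
  have hti : ∀ i j, ti i j ↔ toZ k {a | tr i j a} ∈ U := by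
    intro i j
    rw [← hInU]
    exact ex_toZ (fun a => TrR R' i.toZFSet j.toZFSet a (oz r)) (fun Z => InU ψ Z (oz r))
  have hts : ∀ j, ts j ↔ toZ k {i | ti i j} ∈ U := by
    intro j
    rw [← hInU]
    exact ex_toZ (fun i => TiR R' ψ i j.toZFSet (oz r)) (fun Z => InU ψ Z (oz r))
  have hIn : ∀ i, InR R' ψ i.toZFSet (oz r) ↔ ∀ j < g.ord, (ti i j ↔ ts j) := by
    intro i
    exact all_iff (fun j => (TiR R' ψ i.toZFSet j (oz r) ↔ TsR R' ψ j (oz r)))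
  have hBi : ∀ i a, BiR R' ψ i.toZFSet a.toZFSet (oz r) ↔ ∀ j < g.ord, (tr i j a ↔ ts j) := by
    intro i a
    exact all_iff (fun j => (TrR R' i.toZFSet j a.toZFSet (oz r) ↔ TsR R' ψ j (oz r)))
  have hA : ∀ i j, HOD (toZ k {a | tr i j a}) := fun i j =>
    hod_set (P := fun s => TrR R' (s 1) (s 2) (s 0) fun n => s (n + 3)) (df_Tr hR 1 2 0 3)
      (cns i (cns j r)) fun _ _ => Iff.rfl
  have hT : ∀ j, HOD (toZ k {i | ti i j}) := fun j =>
    hod_set (P := fun s => TiR R' ψ (s 0) (s 1) fun n => s (n + 2)) (df_Ti hR ψ 0 1 2)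
      (cns j r) fun _ _ => Iff.rfl
  have stepA : ∀ i, toZ k {a | ∀ j < g.ord, a ∈ {a | tr i j a ↔ ti i j}} ∈ U := by
    intro i
    refine inter hU3 hgk (S := fun j => {a | tr i j a ↔ ti i j})
      (P := fun s => TrR R' (s 2) (s 0) (s 1) (fun n => s (n + 3)) ↔
        TiR R' ψ (s 2) (s 0) fun n => s (n + 3))
      ((df_Tr hR 2 0 1 3).iff (df_Ti hR ψ 2 0 3)) (cns i r) (fun _ _ _ _ => Iff.rfl) ?_
    intro j _
    by_cases hc : ti i j
    · have e : {a | tr i j a ↔ ti i j} = {a | tr i j a} := by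
        ext a
        exact ⟨fun h => h.2 hc, fun h => ⟨fun _ => hc, fun _ => h⟩⟩
      change toZ k {a | tr i j a ↔ ti i j} ∈ U
      rw [e]
      exact (hti i j).1 hc
    · have e : {a | tr i j a ↔ ti i j} = {a | tr i j a}ᶜ := by
        ext a
        exact ⟨fun h h' => hc (h.1 h'), fun h => ⟨fun h' => absurd h' h, fun h' => absurd h' hc⟩⟩
      change toZ k {a | tr i j a ↔ ti i j} ∈ U
      rw [e]
      by_contra hn
      exact hc ((hti i j).2 ((hU1 _ (hA i j)).2 hn))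
  set X : Set Ordinal.{u} := {i | ∀ j < g.ord, i ∈ {i | ti i j ↔ ts j}} with hX
  have stepB : toZ k X ∈ U := by
    refine inter hU3 hgk (S := fun j => {i | ti i j ↔ ts j})
      (P := fun s => TiR R' ψ (s 1) (s 0) (fun n => s (n + 2)) ↔ TsR R' ψ (s 0) fun n => s (n + 2))
      ((df_Ti hR ψ 1 0 2).iff (df_Ts hR ψ 0 2)) r (fun _ _ _ _ => Iff.rfl) ?_
    intro j _
    by_cases hc : ts j
    · have e : {i | ti i j ↔ ts j} = {i | ti i j} := by
        ext a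
        exact ⟨fun h => h.2 hc, fun h => ⟨fun _ => hc, fun _ => h⟩⟩
      change toZ k {i | ti i j ↔ ts j} ∈ U
      rw [e]
      exact (hts j).1 hc
    · have e : {i | ti i j ↔ ts j} = {i | ti i j}ᶜ := by
        ext a
        exact ⟨fun h h' => hc (h.1 h'), fun h => ⟨fun h' => absurd h' h, fun h' => absurd h' hc⟩⟩
      change toZ k {i | ti i j ↔ ts j} ∈ U
      rw [e]
      by_contra hn
      exact hc ((hts j).2 ((hU1 _ (hT j)).2 hn))
  have hXP : ∀ a < k, a ∈ X ↔ InR R' ψ (oz (cns a r) 0) fun n => oz (cns a r) (n + 1) :=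
    fun a _ => (hIn a).symm
  have hunb : ∀ b < k, ∃ x ∈ X, b < x ∧ x < k := by
    intro b hb
    obtain ⟨x, hx, hbx, hxk⟩ := exists_ge hU1 hU2 hU3 h2k
      (P := fun s => InR R' ψ (s 0) fun n => s (n + 1)) (df_In hR ψ 0 1) r hXP stepB
      (hlim.succ_lt hb)
    exact ⟨x, hx, (Order.lt_succ b).trans_le hbx, hxk⟩
  obtain ⟨t, ht, -⟩ := t_NTH (Order.succ g) hl X hunb
  have hmk : (Order.succ m).ord < k := ord_lt_ord.2 ((Order.succ_le_of_lt hm).trans_lt (Order.lt_succ g))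
  obtain ⟨htX, hbk, e, he, hE⟩ := ht _ hmk
  set b : Ordinal.{u} := t (Order.succ m).ord with hb
  have stepC : toZ k {a | ∀ i < b, a ∈ {a | i ∈ X → ∀ j < g.ord, (tr i j a ↔ ts j)}} ∈ U := by
    refine inter hU3 hbk (S := fun i => {a | i ∈ X → ∀ j < g.ord, (tr i j a ↔ ts j)})
      (P := fun s => InR R' ψ (s 0) (fun n => s (n + 2)) → BiR R' ψ (s 0) (s 1) fun n => s (n + 2))
      ((df_In hR ψ 0 2).imp (df_Bi hR ψ 0 1 2)) r
      (fun i _ a _ => imp_congr (hIn i).symm (hBi i a).symm) ?_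
    intro i _
    by_cases hi : i ∈ X
    · have e : {a | i ∈ X → ∀ j < g.ord, (tr i j a ↔ ts j)} =
          {a | ∀ j < g.ord, a ∈ {a | tr i j a ↔ ti i j}} := by
        ext a
        constructor
        · intro h j hj
          exact (h hi j hj).trans (hi j hj).symm
        · intro h _ j hj
          exact (h j hj).trans (hi j hj)
      change toZ k {a | i ∈ X → ∀ j < g.ord, (tr i j a ↔ ts j)} ∈ U
      rw [e]
      exact stepA i
    · have e : {a | i ∈ X → ∀ j < g.ord, (tr i j a ↔ ts j)} = Set.univ := by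
        ext a
        exact ⟨fun _ => trivial, fun _ h => absurd h hi⟩
      change toZ k {a | i ∈ X → ∀ j < g.ord, (tr i j a ↔ ts j)} ∈ U
      rw [e]
      exact univ_mem hU3 ((zero_lt_two).trans h2k)
  obtain ⟨a, haX, hba, hak⟩ := exists_ge hU1 hU2 hU3 h2k
    (P := fun s => ∀ i, i ∈ s 1 → (InR R' ψ i (fun n => s (n + 2)) →
      BiR R' ψ i (s 0) fun n => s (n + 2)))
    (Df.all (R := fun i s => i ∈ s 1 → (InR R' ψ i (fun n => s (n + 2)) →
      BiR R' ψ i (s 0) fun n => s (n + 2)))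
      ((Df.mem 0 2).imp ((df_In hR ψ 0 3).imp (df_Bi hR ψ 0 1 3)))) (cns b r)
    (fun a _ => by
      refine Iff.trans ?_ (all_iff (b := b) (fun i => InR R' ψ i (oz r) →
        BiR R' ψ i a.toZFSet (oz r))).symm
      exact forall_congr' fun i => forall_congr' fun _ => imp_congr (hIn i).symm (hBi i a).symm)
    stepC hbk
  obtain ⟨hRa, hcard, f, hf, hfi⟩ := hF a hak
  have hRa' : ∀ y, R' (cns y (cns a.toZFSet fun n => oz r (2 * n + 3))) ↔ y = F a := by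
    intro y
    rw [rp, ← oz_cns]
    exact hRa y
  have htra : ∀ i j, tr i j a ↔ ∃ f ∈ F a, Inj a.toZFSet g.ord.toZFSet f ∧
      Val f i.toZFSet j.toZFSet := by
    intro i j
    constructor
    · rintro ⟨Y, hY, f, hf, h1, h2⟩
      rw [hRa'] at hY
      subst hY
      exact ⟨f, hf, h1, h2⟩
    · rintro ⟨f, hf, h1, h2⟩
      exact ⟨F a, (hRa' _).2 rfl, f, hf, h1, h2⟩
  have hfi' := inj_iff.1 hfi
  choose v hv using exists_val hfi'.1
  have heX : ∀ i < (Order.succ m).ord, e i ∈ X ∧ e i < b := by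
    intro i hi
    have h1 : e i ∈ X ∩ Set.Iio b := by
      rw [hE]
      exact ⟨i, hi, rfl⟩
    exact h1
  have hpos : (0 : Ordinal.{u}) < (Order.succ m).ord := by
    rw [lt_ord, card_zero]
    exact (Cardinal.zero_le m).trans_lt (Order.lt_succ m)
  have hex : ∀ i : Set.Iio (Order.succ m).ord, ∃ f' : F a,
      Val f'.1 (e 0).toZFSet (v (e i.1)).toZFSet := by
    rintro ⟨i, hi⟩
    obtain ⟨h1, h2⟩ := heX i hi
    obtain ⟨h3, h4⟩ := heX 0 hpos
    obtain ⟨h5, h6⟩ := hv (e i) (h2.trans_le hba)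
    have h7 : tr (e i) (v (e i)) a := (htra _ _).2 ⟨f, hf, hfi, h6⟩
    have h8 : ts (v (e i)) := (haX (e i) h2 h1 _ h5).1 h7
    have h9 : tr (e 0) (v (e i)) a := (haX (e 0) h4 h3 _ h5).2 h8
    obtain ⟨f', hf', -, h10⟩ := (htra _ _).1 h9
    exact ⟨⟨f', hf'⟩, h10⟩
  choose G hG using hex
  have hGinj : Function.Injective G := by
    rintro ⟨i, hi⟩ ⟨i', hi'⟩ hii
    have h1 := hG ⟨i, hi⟩
    have h2 := hG ⟨i', hi'⟩
    rw [hii] at h1
    have h3 : v (e i) = v (e i') := val_unique h1 h2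
    have h4 := (hv (e i) ((heX i hi).2.trans_le hba)).2.1
    have h5 := (hv (e i') ((heX i' hi').2.trans_le hba)).2.1
    rw [h3] at h4
    have h6 : e i = e i' := toZFSet_injective (hfi'.2 _ _ _ h4 h5)
    have h7 : i = i' := he.injOn hi hi' h6
    subst h7
    rfl
  have h1 := Cardinal.mk_le_of_injective hGinj
  rw [ZFSet.cardinalMk_coe_sort, Cardinal.mk_Iio_ordinal, card_ord, Cardinal.lift_le] at h1
  exact absurd (h1.trans hcard) (not_le.2 (Order.lt_succ m))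

/-! ### Families of variable size, and parameters -/

/-- pigeonhole -/
theorem pigeon2 {l : Cardinal.{u}} (hl : l.IsRegular) (h0 : ℵ₀ < l) {J : Type u} (hJ : #J < l)
    (Q : J → Ordinal.{u} → Prop) (hQ : ∀ a < l.ord, ∃ j, Q j a) :
    ∃ j, ∀ a < l.ord, ∃ a', a < a' ∧ a' < l.ord ∧ Q j a' := by
  by_contra hc
  push Not at hc
  choose b hb hb' using hc
  have h1 := t_CI l hl h0 J (fun j => {a | a < l.ord ∧ b j < a}) hJ fun j => club_above hl h0 (hb j)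
  have hpos : (0 : Ordinal.{u}) < l.ord := by
    rw [lt_ord, card_zero]
    exact Cardinal.aleph0_pos.trans h0
  obtain ⟨c, hc, -⟩ := h1.2.1 0 hpos
  obtain ⟨j, hj⟩ := hQ c hc.1
  exact hb' j c (hc.2 j).2 hc.1 hj

/-- the sets definable from ordinals and a parameter in `V_t` are elements of ordinal definable sets with
at most `|V_t|` elements -/
theorem family_of_param {t : Ordinal.{u}} {x f : ZFSet.{u}} (hx : x ∈ ZFSet.vonNeumann t)
    (hf : ODp x f) : ∃ X : ZFSet.{u}, OD X ∧ X.card ≤ (ZFSet.vonNeumann t).card ∧ f ∈ X := by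
  obtain ⟨φ, p, hφ⟩ := hf
  set X : ZFSet.{u} := ZFSet.sep (fun z => ∃ x' ∈ ZFSet.vonNeumann t,
    ∀ y, Sat φ (cns y (cns x' (oz p))) ↔ y = z) (ZFSet.vonNeumann (Order.succ f.rank)) with hX
  have hmem : ∀ z, z ∈ X ↔ (z ∈ ZFSet.vonNeumann (Order.succ f.rank) ∧
      ∃ x', x' ∈ ZFSet.vonNeumann t ∧ ∀ y, (Sat φ (cns y (cns x' (oz p))) ↔ y = z)) := by
    intro z
    rw [hX, ZFSet.mem_sep]
  refine ⟨X, ?_, ?_, ?_⟩
  · refine OD.of_df (P := fun s => ∃ W, ((s 1).IsOrdinal ∧ W = ZFSet.vonNeumann (s 1).rank) ∧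
      ∃ W', ((s 2).IsOrdinal ∧ W' = ZFSet.vonNeumann (s 2).rank) ∧
      ∀ z, (z ∈ s 0 ↔ (z ∈ W' ∧ ∃ x', x' ∈ W ∧
        ∀ y, (Sat φ (cns y (cns x' (fun n => s (n + 3)))) ↔ y = z)))) ?_
      (cns t (cns (Order.succ f.rank) p)) fun Y => ?_
    · refine Df.ex (R := fun W s => ((s 1).IsOrdinal ∧ W = ZFSet.vonNeumann (s 1).rank) ∧
        ∃ W', ((s 2).IsOrdinal ∧ W' = ZFSet.vonNeumann (s 2).rank) ∧
        ∀ z, (z ∈ s 0 ↔ (z ∈ W' ∧ ∃ x', x' ∈ W ∧
          ∀ y, (Sat φ (cns y (cns x' (fun n => s (n + 3)))) ↔ y = z)))) ?_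
      refine (Df.sub2 (R := fun x y => x.IsOrdinal ∧ y = ZFSet.vonNeumann x.rank) t_VTH 2 0).and ?_
      refine Df.ex (R := fun W' s => ((s 3).IsOrdinal ∧ W' = ZFSet.vonNeumann (s 3).rank) ∧
        ∀ z, (z ∈ s 1 ↔ (z ∈ W' ∧ ∃ x', x' ∈ s 0 ∧
          ∀ y, (Sat φ (cns y (cns x' (fun n => s (n + 4)))) ↔ y = z)))) ?_
      refine (Df.sub2 (R := fun x y => x.IsOrdinal ∧ y = ZFSet.vonNeumann x.rank) t_VTH 4 0).and ?_
      refine Df.all (R := fun z s => (z ∈ s 2 ↔ (z ∈ s 0 ∧ ∃ x', x' ∈ s 1 ∧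
          ∀ y, (Sat φ (cns y (cns x' (fun n => s (n + 5)))) ↔ y = z)))) ?_
      refine (Df.mem 0 3).iff ((Df.mem 0 1).and ?_)
      refine Df.ex (R := fun x' s => x' ∈ s 2 ∧
          ∀ y, (Sat φ (cns y (cns x' (fun n => s (n + 6)))) ↔ y = s 0)) ?_
      refine (Df.mem 0 3).and ?_
      refine Df.all (R := fun y s => (Sat φ (cns y (cns (s 0) (fun n => s (n + 7)))) ↔ y = s 1)) ?_
      refine Df.iff ?_ (Df.eq 0 2)
      have h : Df.{u} fun s => Sat φ s := ⟨φ, fun _ => Iff.rfl⟩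
      refine (h.ren (cns 0 (cns 1 fun n => n + 8))).congr fun s => ?_
      have e : (fun n => s ((cns 0 (cns 1 fun n => n + 8) : ℕ → ℕ) n)) =
          cns (s 0) (cns (s 1) (fun n => s (n + 8))) := by
        funext n
        rcases n with _ | _ | n <;> rfl
      rw [e]
    · rw [oz_cns, oz_cns]
      change (∃ W, (t.toZFSet.IsOrdinal ∧ W = ZFSet.vonNeumann t.toZFSet.rank) ∧
        ∃ W', ((Order.succ f.rank).toZFSet.IsOrdinal ∧
          W' = ZFSet.vonNeumann (Order.succ f.rank).toZFSet.rank) ∧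
        ∀ z, (z ∈ Y ↔ (z ∈ W' ∧ ∃ x', x' ∈ W ∧
          ∀ y, (Sat φ (cns y (cns x' (oz p))) ↔ y = z)))) ↔ Y = X
      rw [rank_toZFSet, rank_toZFSet]
      constructor
      · rintro ⟨W, ⟨-, rfl⟩, W', ⟨-, rfl⟩, h⟩
        apply ZFSet.ext
        intro z
        rw [h, hmem]
      · rintro rfl
        exact ⟨_, ⟨ZFSet.isOrdinal_toZFSet t, rfl⟩, _, ⟨ZFSet.isOrdinal_toZFSet _, rfl⟩, hmem⟩
  · have h : ∀ z, ∃ x', z ∈ X → x' ∈ ZFSet.vonNeumann t ∧
        ∀ y, (Sat φ (cns y (cns x' (oz p))) ↔ y = z) := by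
      intro z
      by_cases hz : z ∈ X
      · obtain ⟨x', h1, h2⟩ := ((hmem z).1 hz).2
        exact ⟨x', fun _ => ⟨h1, h2⟩⟩
      · exact ⟨∅, fun h => absurd h hz⟩
    choose g hg using h
    refine PAR.card_le_of_inj g (fun z hz => (hg z hz).1) fun z hz z' hz' he => ?_
    have h1 := ((hg z hz).2 z).2 rfl
    rw [he] at h1
    exact ((hg z' hz').2 z).1 h1
  · refine (hmem f).2 ⟨?_, x, hx, hφ⟩
    rw [ZFSet.mem_vonNeumann]
    exact Order.lt_succ _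

end Blur

/-- the successor of the cardinal `g` is computed correctly by ordinal definable families of fewer than
`g` sets: for every `a < g^+` such a family has a member that maps the ordinals below `a` in a one-to-one
way to the ordinals below `g` -/
def BlurSucc (g : Cardinal.{u}) : Prop := ∀ a < (Order.succ g).ord, ∃ X : ZFSet.{u}, OD X ∧
  X.card < g ∧ ∃ f ∈ X, (∀ i < a, ∃ j < g.ord, ZFSet.pair i.toZFSet j.toZFSet ∈ f) ∧
    ∀ x y z, ZFSet.pair x z ∈ f → ZFSet.pair y z ∈ f → x = y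

/-- **Theorem.** If the successor of the infinite cardinal `g` is computed correctly by ordinal definable
families of fewer than `g` sets then `g^+` is not measurable in HOD. -/
theorem not_measH {g : Cardinal.{u}} (hg : ℵ₀ ≤ g) (h : BlurSucc g) :
    ¬ MeasH (Order.succ g).ord := by
  have hl : (Order.succ g).IsRegular := isRegular_succ hg
  have h0 : ℵ₀ < Order.succ g := hg.trans_lt (Order.lt_succ g)
  obtain ⟨j, hj⟩ := Blur.pigeon2 hl h0 (J := g.ord.ToType)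
    (by rw [Cardinal.mk_toType, card_ord]; exact Order.lt_succ g)
    (fun j a => ∃ X : ZFSet.{u}, OD X ∧ X.card = (ToType.toOrd j).1.card ∧ ∃ f ∈ X,
      (∀ i < a, ∃ j < g.ord, ZFSet.pair i.toZFSet j.toZFSet ∈ f) ∧
      ∀ x y z, ZFSet.pair x z ∈ f → ZFSet.pair y z ∈ f → x = y) (by
    intro a ha
    obtain ⟨X, hX, hXg, h1⟩ := h a ha
    refine ⟨ToType.mk ⟨X.card.ord, Set.mem_Iio.2 (ord_lt_ord.2 hXg)⟩, X, hX, ?_, h1⟩
    rw [ToType.toOrd, OrderIso.symm_apply_apply, card_ord])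
  refine Blur.not_measH hg (m := (ToType.toOrd j).1.card) ?_ ?_
  · exact lt_ord.1 (ToType.toOrd j).2
  · intro a ha
    obtain ⟨a', haa', -, X, hX, hXm, f, hf, h1, h2⟩ := hj a ha
    exact ⟨X, hX, hXm.le, f, hf, fun i hi => h1 i (hi.trans haa'), h2⟩

end Pool.Agent.NH49.EX
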